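import Mathlib

set_option autoImplicit false
set_option maxHeartbeats 1000000

/-! Pairs of quaternionic hermitian forms.  A right quaternionic space is a module over `Q`, the
opposite of the quaternions.  A quaternionic hermitian form `h` is represented by its real part
`b x y = Re h x y`, a real bilinear symmetric form with `b (q • x) y = b x (star q • y)`.
Subspaces are `Submodule Q V`, dimension is `Module.finrank Q`. -/

namespace Pool.QN

open scoped Quaternion

/-- right quaternion scalars -/
abbrev Q : Type := (ℍ[ℝ])ᵐᵒᵖ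

variable {V : Type} [AddCommGroup V] [Module Q V] [Module ℝ V] [IsScalarTower ℝ Q V]

/-- real bilinear forms -/
abbrev BF (V : Type) [AddCommGroup V] [Module ℝ V] : Type := LinearMap.BilinForm ℝ V

/-- `b` is (the real part of) a quaternionic hermitian form -/
structure IsF (b : BF V) : Prop where
  symm : ∀ x y, b x y = b y x
  adj : ∀ (q : Q) (x y : V), b (q • x) y = b x (star q • y)

/-- nondegenerate -/
def Nd (b : BF V) : Prop := ∀ x, (∀ y, b x y = 0) → x = 0

/-- negative definite on a subspace -/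
def NegOn (b : BF V) (U : Submodule Q V) : Prop := ∀ x ∈ U, x ≠ 0 → b x x < 0

/-- nonnegative on a subspace -/
def NonnegOn (b : BF V) (U : Submodule Q V) : Prop := ∀ x ∈ U, 0 ≤ b x x

/-- negative index of the restriction of `b` to the subspace `W` -/
noncomputable def nn (b : BF V) (W : Submodule Q V) : ℕ :=
  sSup {k | ∃ U : Submodule Q V, U ≤ W ∧ NegOn b U ∧ Module.finrank Q U = k}

/-- the form `(x, y) ↦ b x (X y)` -/
noncomputable def tw (b : BF V) (X : V →ₗ[Q] V) : BF V := b.compl₂ (X.restrictScalars ℝ)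

/-- the form `(x, y) ↦ b (X x) (X y)` -/
noncomputable def tt (b : BF V) (X : V →ₗ[Q] V) : BF V :=
  b.comp (X.restrictScalars ℝ) (X.restrictScalars ℝ)

/-- `X` is selfadjoint with respect to `b` -/
def SA (b : BF V) (X : V →ₗ[Q] V) : Prop := ∀ x y, b (X x) y = b x (X y)

/-- restriction of a form to a subspace -/
noncomputable def rs (b : BF V) (W : Submodule Q V) : BF W :=
  b.comp (W.subtype.restrictScalars ℝ) (W.subtype.restrictScalars ℝ)

/-- orthogonal complement of a subspace with respect to one form -/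
def orth (b : BF V) (hb : IsF b) (U : Submodule Q V) : Submodule Q V where
  carrier := {y | ∀ x ∈ U, b x y = 0}
  add_mem' := by
    intro y z hy hz x hx
    rw [map_add, hy x hx, hz x hx, add_zero]
  zero_mem' := by
    intro x _
    rw [map_zero]
  smul_mem' := by
    intro q y hy x hx
    have h := hb.adj (star q) x y
    rw [star_star] at h
    rw [← h]
    exact hy _ (U.smul_mem _ hx)

/-- `M` is neutral for both forms -/
def Neu (b a : BF V) (M : Submodule Q V) : Prop := ∀ x ∈ M, ∀ y ∈ M, b x y = 0 ∧ a x y = 0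

/-- `M` is maximal neutral -/
def MaxNeu (b a : BF V) (M : Submodule Q V) : Prop :=
  Neu b a M ∧ ∀ M' : Submodule Q V, Neu b a M' → M ≤ M' → M' = M

/-- all maximal neutral subspaces have the same dimension -/
def PP (b a : BF V) : Prop := ∀ M N : Submodule Q V, MaxNeu b a M → MaxNeu b a N →
  Module.finrank Q M = Module.finrank Q N

/-- some nontrivial real combination is positive semidefinite -/
def SD (b a : BF V) : Prop := ∃ μ ν : ℝ, (μ ≠ 0 ∨ ν ≠ 0) ∧ ∀ x, 0 ≤ (μ • b + ν • a) x x

/-- the kernel of `c` is the common kernel of `b` and `a` -/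
def KMin (b a c : BF V) : Prop := ∀ x, (∀ y, c x y = 0) → (∀ y, b x y = 0) ∧ (∀ y, a x y = 0)

/-- the smallest negative index of a member of the pencil with the smallest kernel -/
noncomputable def kap (b a : BF V) : ℕ :=
  sInf {k | ∃ μ ν : ℝ, KMin b a (μ • b + ν • a) ∧ nn (μ • b + ν • a) ⊤ = k}

/-- some member of the pencil has the smallest possible kernel -/
def Reg (b a : BF V) : Prop := ∃ μ ν : ℝ, KMin b a (μ • b + ν • a)

/-- the inertia criterion -/
def Crit (b a : BF V) : Prop := ∀ μ ν ρ τ : ℝ, μ * τ - ν * ρ ≠ 0 → KMin b a (μ • b + ν • a) →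
  ∃ X : V →ₗ[Q] V, (∀ x y, (μ • b + ν • a) x (X y) = (ρ • b + τ • a) x y) ∧
    ∃ p q : ℝ, nn (tt (μ • b + ν • a) X + p • (ρ • b + τ • a) + q • (μ • b + ν • a)) ⊤ + kap b a
      ≤ nn (μ • b + ν • a) ⊤

/-! ### normal forms -/

/-- sign attached to a Boolean -/
noncomputable def sg (e : Bool) : ℝ := if e then 1 else -1

/-- indecomposable pieces -/
inductive Piece : Type
  | ray (e : Bool) (x : ℝ)
  | cx (r s : ℝ)
  | b2 (e : Bool) (r : ℝ)
  | b3 (r : ℝ)

/-- `X - r` -/
noncomputable def sh (X : V →ₗ[Q] V) (r : ℝ) : V →ₗ[Q] V := X - r • LinearMap.id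

/-- `f` is a cyclic vector of the piece `p` -/
def IsPiece (b : BF V) (X : V →ₗ[Q] V) : Piece → V → Prop
  | Piece.ray e x, f => b f f = sg e ∧ sh X x f = 0
  | Piece.cx r s, f => s ≠ 0 ∧ sh X r (sh X r f) = -(s ^ 2) • f ∧ b f f = 1 ∧ b f (sh X r f) = 0
  | Piece.b2 e r, f => sh X r (sh X r f) = 0 ∧ b f (sh X r f) = sg e ∧ b f f = 0
  | Piece.b3 r, f => sh X r (sh X r (sh X r f)) = 0 ∧ b f (sh X r (sh X r f)) = 1 ∧
      b f (sh X r f) = 0 ∧ b f f = 0

/-- the subspace spanned by `f, X f, X X f` -/
noncomputable def cyc (X : V →ₗ[Q] V) (f : V) : Submodule Q V := Submodule.span Q {f, X f, X (X f)}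

/-- `W` is the orthogonal sum of the pieces in the list -/
def IsNF (b : BF V) (X : V →ₗ[Q] V) : List (Piece × V) → Submodule Q V → Prop
  | [], W => W = ⊥
  | (p, f) :: l, W => IsPiece b X p f ∧ ∃ W' : Submodule Q V, IsNF b X l W' ∧
      (∀ u ∈ cyc X f, ∀ w ∈ W', b u w = 0) ∧ cyc X f ⊔ W' = W

/-- value of the polynomial at the complex number `r + i s` -/
noncomputable def cval (m : Polynomial ℝ) (r s : ℝ) : ℂ :=
  Polynomial.aeval ((r : ℂ) + (s : ℂ) * Complex.I) m

/-- negative index of the form `b (·) (m(X) ·)` on a piece -/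
noncomputable def idx (m : Polynomial ℝ) : Piece → ℕ
  | Piece.ray e x => if sg e * m.eval x < 0 then 1 else 0
  | Piece.cx r s => if cval m r s = 0 then 0 else 1
  | Piece.b2 e r => if m.eval r = 0 then (if sg e * m.derivative.eval r < 0 then 1 else 0) else 1
  | Piece.b3 r => if 0 < m.eval r then 1 else if m.eval r < 0 then 2 else
      if m.derivative.eval r = 0 then (if m.derivative.derivative.eval r < 0 then 1 else 0) else 1

/-- total index of a list of pieces -/
noncomputable def tot (m : Polynomial ℝ) (l : List Piece) : ℕ := (l.map (idx m)).sum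

/-- there is a neutral subspace of `W` of dimension `q` on which `s` is negative definite -/
def DL (b a s : BF V) (W : Submodule Q V) (q : ℕ) : Prop :=
  ∃ M : Submodule Q V, M ≤ W ∧ Neu b a M ∧ NegOn s M ∧ Module.finrank Q M = q

/-- `W` is invariant, nondegenerate, and `b (X² + p X + q)` is nonnegative on it -/
structure Good (b : BF V) (X : V →ₗ[Q] V) (p q : ℝ) (W : Submodule Q V) : Prop where
  inv : ∀ w ∈ W, X w ∈ W
  nd : ∀ x ∈ W, (∀ y ∈ W, b x y = 0) → x = 0
  pos : ∀ x ∈ W, 0 ≤ b (X x) (X x) + p * b x (X x) + q * b x x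

/-- reflection of a piece (`X` replaced by `-X`) -/
noncomputable def refl : Piece → Piece
  | Piece.ray e x => Piece.ray e (-x)
  | Piece.cx r s => Piece.cx (-r) s
  | Piece.b2 e r => Piece.b2 (!e) (-r)
  | Piece.b3 r => Piece.b3 (-r)

/-- `t` is not an eigenvalue of the piece -/
def av (t : ℝ) : Piece → Prop
  | Piece.ray _ x => x ≠ t
  | Piece.cx _ _ => True
  | Piece.b2 _ r => r ≠ t
  | Piece.b3 r => r ≠ t

open Classical in
/-- weights of the conditions -/
noncomputable def wA1 (r1 : ℝ) : Piece → ℤ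
  | Piece.ray true x => if x ≤ r1 then 1 else 0
  | Piece.ray false _ => -1
  | Piece.b2 true _ => -1
  | _ => 0

open Classical in
noncomputable def wA2 (r1 r2 : ℝ) : Piece → ℤ
  | Piece.ray true x => if x ≤ r1 then 1 else if r2 < x then -1 else 0
  | Piece.ray false z => if z = r2 then 0 else -1
  | Piece.b2 true _ => -1
  | _ => 0

open Classical in
noncomputable def wB1 (r2 : ℝ) : Piece → ℤ
  | Piece.ray true x => if r2 ≤ x then 1 else 0
  | Piece.ray false _ => -1
  | Piece.b2 false _ => -1
  | _ => 0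

open Classical in
noncomputable def wB2 (r1 r2 : ℝ) : Piece → ℤ
  | Piece.ray true x => if r2 ≤ x then 1 else if x < r1 then -1 else 0
  | Piece.ray false z => if z = r1 then 0 else -1
  | Piece.b2 false _ => -1
  | _ => 0

open Classical in
noncomputable def wC1 (r : ℝ) : Piece → ℤ
  | Piece.ray true x => if x = r then 1 else 0
  | Piece.ray false _ => -1
  | _ => 0

open Classical in
noncomputable def wC2 (r : ℝ) : Piece → ℤ
  | Piece.ray true x => if r ≤ x then 1 else 0
  | Piece.ray false _ => -1
  | Piece.b2 false _ => -1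
  | _ => 0

open Classical in
noncomputable def wC3 (r : ℝ) : Piece → ℤ
  | Piece.ray true x => if x ≤ r then 1 else 0
  | Piece.ray false _ => -1
  | Piece.b2 true _ => -1
  | _ => 0

/-- sum of the weights -/
def ws (w : Piece → ℤ) (L : List Piece) : ℤ := (L.map w).sum

/-- the conditions under which every member of the pencil has an admissible quadratic -/
def LCrit (L : List Piece) : Prop :=
  (∀ σ : ℝ, σ = 1 ∨ σ = -1 → ∃ h : Polynomial ℝ, h.natDegree ≤ 2 ∧ 0 < h.coeff 2 ∧
    tot (Polynomial.C σ * h) L + tot 1 L ≤ tot (Polynomial.C σ) L) ∧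
  (∀ σ t : ℝ, σ = 1 ∨ σ = -1 → (∀ P ∈ L, av t P) → ∃ h : Polynomial ℝ, h.natDegree ≤ 2 ∧
    0 < h.eval t ∧
    tot (Polynomial.C σ * (Polynomial.X - Polynomial.C t) * h) L + tot 1 L
      ≤ tot (Polynomial.C σ * (Polynomial.X - Polynomial.C t)) L)

/-- shape of the pieces when the quadratic has two real roots `r1 < r2` -/
def shII (r1 r2 : ℝ) : Piece → Prop
  | Piece.ray true x => x ≤ r1 ∨ r2 ≤ x
  | Piece.ray false z => r1 ≤ z ∧ z ≤ r2
  | Piece.b2 true r => r = r2
  | Piece.b2 false r => r = r1
  | Piece.b3 _ => False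
  | Piece.cx _ _ => False

/-- shape of the pieces when the quadratic has a double root -/
def shIII (r : ℝ) : Piece → Prop
  | Piece.ray true _ => True
  | Piece.ray false z => z = r
  | Piece.b2 _ x => x = r
  | Piece.b3 x => x = r
  | Piece.cx _ _ => False

/-- shape of the pieces when the quadratic has no real root -/
def shI (p q : ℝ) : Piece → Prop
  | Piece.ray true _ => True
  | Piece.ray false _ => False
  | Piece.b2 _ _ => False
  | Piece.b3 _ => False
  | Piece.cx r s => s ≠ 0 ∧
      cval (Polynomial.X ^ 2 + Polynomial.C p * Polynomial.X + Polynomial.C q) r s = 0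

/-- number of pieces with a property -/
noncomputable def cnt (p : Piece → Prop) (L : List Piece) : ℕ :=
  L.countP (fun P => @decide (p P) (Classical.propDecidable _))

def pX (r1 : ℝ) : Piece → Prop
  | Piece.ray true x => x ≤ r1
  | _ => False

def pY (r2 : ℝ) : Piece → Prop
  | Piece.ray true x => r2 < x
  | _ => False

def pZ (r2 : ℝ) : Piece → Prop
  | Piece.ray false z => z = r2
  | _ => False

def pZL (r2 : ℝ) : Piece → Prop
  | Piece.ray false z => z ≠ r2
  | _ => False

def pJ (e : Bool) : Piece → Prop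
  | Piece.b2 e' _ => e' = e
  | _ => False

def pT : Piece → Prop
  | Piece.b3 _ => True
  | _ => False

/-- `W` has an orthogonal subspace (for both forms) of too large dimension -/
def Big (b a : BF V) (W : Submodule Q V) : Prop :=
  ∃ U : Submodule Q V, (∀ w ∈ W, ∀ u ∈ U, b w u = 0 ∧ a w u = 0) ∧
    Module.finrank Q V < Module.finrank Q W + Module.finrank Q U

/-- no common kernel -/
def NoRad (b a : BF V) : Prop := ∀ x, (∀ y, b x y = 0) → (∀ y, a x y = 0) → x = 0

/-- `W` is a complement of the line of `v` in its common orthogonal complement -/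
def LineCompl (b a : BF V) (v : V) (W : Submodule Q V) : Prop :=
  (∀ w ∈ W, b v w = 0 ∧ a v w = 0) ∧ Submodule.span Q {v} ⊓ W = ⊥ ∧
    ∀ y, b v y = 0 → a v y = 0 → (∀ q : Q, b v (q • y) = 0 ∧ a v (q • y) = 0) →
      y ∈ Submodule.span Q {v} ⊔ W

/-- `W` is a complement of the common kernel -/
def RadCompl (b a : BF V) (W : Submodule Q V) : Prop :=
  (∀ x ∈ W, (∀ y, b x y = 0) → (∀ y, a x y = 0) → x = 0) ∧
    ∀ x, ∃ w ∈ W, ∀ y, b (x - w) y = 0 ∧ a (x - w) y = 0

end Pool.QN
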