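import Pool.Agent.Helper9.QN.Defs

set_option autoImplicit false
set_option maxHeartbeats 1000000

namespace Pool.QN

open scoped Quaternion

/-- size of a canonical block -/
def sz : Piece → ℕ
  | Piece.ray _ _ => 1
  | Piece.cx _ _ => 2
  | Piece.b2 _ _ => 2
  | Piece.b3 _ => 3

/-- the first matrix of a canonical block -/
noncomputable def cB : (p : Piece) → Matrix (Fin (sz p)) (Fin (sz p)) ℝ
  | Piece.ray e _ => !![sg e]
  | Piece.cx _ _ => !![1, 0; 0, -1]
  | Piece.b2 e _ => !![0, sg e; sg e, 0]
  | Piece.b3 _ => !![0, 0, 1; 0, 1, 0; 1, 0, 0]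

/-- the second matrix of a canonical block -/
noncomputable def dB : (p : Piece) → Matrix (Fin (sz p)) (Fin (sz p)) ℝ
  | Piece.ray e x => !![sg e * x]
  | Piece.cx r s => !![r, -s; -s, -r]
  | Piece.b2 e r => !![sg e, sg e * r; sg e * r, 0]
  | Piece.b3 r => !![0, 1, r; 1, r, 0; r, 0, 0]

/-- index set of the block diagonal matrix of a list of blocks -/
def Ix : List Piece → Type
  | [] => Fin 0
  | p :: L => Fin (sz p) ⊕ Ix L

noncomputable instance instFintypeIx : (L : List Piece) → Fintype (Ix L)
  | [] => inferInstanceAs (Fintype (Fin 0))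
  | p :: L => @instFintypeSum (Fin (sz p)) (Ix L) inferInstance (instFintypeIx L)

noncomputable instance instDecEqIx (L : List Piece) : DecidableEq (Ix L) := Classical.decEq _

/-- block diagonal matrix of the first matrices -/
noncomputable def cM : (L : List Piece) → Matrix (Ix L) (Ix L) ℝ
  | [] => 0
  | p :: L => Matrix.fromBlocks (cB p) 0 0 (cM L)

/-- block diagonal matrix of the second matrices -/
noncomputable def dM : (L : List Piece) → Matrix (Ix L) (Ix L) ℝ
  | [] => 0
  | p :: L => Matrix.fromBlocks (dB p) 0 0 (dM L)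

/-- no nonreal eigenvalue or only one (up to conjugation) and all real ones positive -/
def AdmI (L : List Piece) : Prop :=
  ∃ r s : ℝ, s ≠ 0 ∧ ∀ p ∈ L, (∃ x, p = Piece.ray true x) ∨ p = Piece.cx r s ∨ p = Piece.cx r (-s)

/-- two critical eigenvalues `r1 < r2` -/
def AdmII (L : List Piece) : Prop :=
  ∃ r1 r2 : ℝ, r1 < r2 ∧ (∀ p ∈ L, shII r1 r2 p) ∧
    cnt (fun p => ∃ z, r1 < z ∧ z < r2 ∧ p = Piece.ray false z) L
      + cnt (fun p => p = Piece.ray false r1) L + cnt (fun p => p = Piece.b2 true r2) L
      + min (cnt (fun p => ∃ x, r2 < x ∧ p = Piece.ray true x) L)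
          (cnt (fun p => p = Piece.ray false r2) L)
      ≤ cnt (fun p => ∃ x, x < r1 ∧ p = Piece.ray true x) L
        + cnt (fun p => p = Piece.ray true r1) L ∧
    cnt (fun p => ∃ z, r1 < z ∧ z < r2 ∧ p = Piece.ray false z) L
      + cnt (fun p => p = Piece.ray false r2) L + cnt (fun p => p = Piece.b2 false r1) L
      + min (cnt (fun p => ∃ x, x < r1 ∧ p = Piece.ray true x) L)
          (cnt (fun p => p = Piece.ray false r1) L)
      ≤ cnt (fun p => ∃ x, r2 < x ∧ p = Piece.ray true x) L
        + cnt (fun p => p = Piece.ray true r2) L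

/-- one critical eigenvalue `r` -/
def AdmIII (L : List Piece) : Prop :=
  ∃ r : ℝ, (∀ p ∈ L, shIII r p) ∧
    cnt (fun p => p = Piece.ray false r) L ≤ cnt (fun p => p = Piece.ray true r) L +
      min (cnt (fun p => ∃ x, r < x ∧ p = Piece.ray true x) L
            - cnt (fun p => p = Piece.b2 false r) L)
          (cnt (fun p => ∃ x, x < r ∧ p = Piece.ray true x) L
            - cnt (fun p => p = Piece.b2 true r) L)

/-- admissible lists of blocks -/
def Adm (L : List Piece) : Prop := AdmI L ∨ AdmII L ∨ AdmIII L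

variable {V : Type} [AddCommGroup V] [Module Q V] [Module ℝ V] [IsScalarTower ℝ Q V]

/-- the forms `c`, `d` on `W` have the canonical matrices of the list `L` in some basis -/
def CanB (c d : BF V) (W : Submodule Q V) (L : List Piece) : Prop :=
  ∃ v : Ix L → V, LinearIndependent Q v ∧ Submodule.span Q (Set.range v) = W ∧
    ∀ i j, ∀ q : Q, c (v i) (q • v j) = q.unop.re * cM L i j ∧
      d (v i) (q • v j) = q.unop.re * dM L i j

end Pool.QN
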