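import Pool.Agent.Helper9.QN.Defs

set_option autoImplicit false
set_option maxHeartbeats 1000000

/-! Matrix layer: quaternion matrices and the forms they define. -/

namespace Pool.QN

open scoped Quaternion
open Matrix

/-- quaternion matrices -/
abbrev Mat (n : ℕ) : Type := Matrix (Fin n) (Fin n) ℍ[ℝ]

/-- right `ℍ`-subspaces of `ℍ^n` -/
abbrev RSub (n : ℕ) : Type := Submodule (ℍ[ℝ])ᵐᵒᵖ (Fin n → ℍ[ℝ])

section
variable {n : ℕ}

theorem star_smul_vec (c : ℝ) (x : Fin n → ℍ[ℝ]) : star (c • x) = c • star x := by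
  funext i
  exact Quaternion.star_smul c (x i)

/-- the real form `Re (x^* B y)` -/
noncomputable def fm (B : Mat n) : BF (Fin n → ℍ[ℝ]) :=
  LinearMap.mk₂ ℝ (fun x y => (star x ⬝ᵥ B *ᵥ y).re)
    (by intro x y z; rw [star_add, add_dotProduct, Quaternion.re_add])
    (by intro c x y; rw [star_smul_vec, smul_dotProduct, Quaternion.re_smul])
    (by intro x y z; rw [mulVec_add, dotProduct_add, Quaternion.re_add])
    (by intro c x y; rw [mulVec_smul, dotProduct_smul, Quaternion.re_smul])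

theorem fm_apply (B : Mat n) (x y : Fin n → ℍ[ℝ]) : fm B x y = (star x ⬝ᵥ B *ᵥ y).re := rfl

theorem star_form {B : Mat n} (hB : B.IsHermitian) (x y : Fin n → ℍ[ℝ]) :
    star (star x ⬝ᵥ B *ᵥ y) = star y ⬝ᵥ B *ᵥ x := by
  rw [← star_dotProduct_star, star_star, star_mulVec, hB.eq, ← dotProduct_mulVec]

theorem fm_symm {B : Mat n} (hB : B.IsHermitian) (x y : Fin n → ℍ[ℝ]) : fm B x y = fm B y x := by
  rw [fm_apply, fm_apply, ← star_form hB y x, Quaternion.re_star]

theorem form_smul (B : Mat n) (x y : Fin n → ℍ[ℝ]) (d e : (ℍ[ℝ])ᵐᵒᵖ) :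
    star (d • x) ⬝ᵥ B *ᵥ (e • y) = star d.unop * (star x ⬝ᵥ B *ᵥ y) * e.unop := by
  rw [mulVec_smul, dotProduct_smul]
  have h1 : star (d • x) ⬝ᵥ B *ᵥ y = star d.unop * (star x ⬝ᵥ B *ᵥ y) := by
    simp only [dotProduct, Pi.star_apply, Pi.smul_apply, Finset.mul_sum]
    refine Finset.sum_congr rfl fun i _ => ?_
    rw [MulOpposite.smul_eq_mul_unop, star_mul, mul_assoc]
  rw [h1, MulOpposite.smul_eq_mul_unop]

theorem re_mul_comm' (p q : ℍ[ℝ]) : (p * q).re = (q * p).re := by
  rw [Quaternion.re_mul, Quaternion.re_mul]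
  ring

theorem isF_fm {B : Mat n} (hB : B.IsHermitian) : IsF (fm B) where
  symm := fm_symm hB
  adj := by
    intro d x y
    have e1 := form_smul B x y d 1
    have e2 := form_smul B x y 1 (star d)
    rw [one_smul] at e1 e2
    rw [fm_apply, fm_apply, e1, e2, MulOpposite.unop_one, mul_one, star_one, one_mul, re_mul_comm',
      MulOpposite.unop_star]

theorem re_sum' {ι : Type*} (s : Finset ι) (f : ι → ℍ[ℝ]) : (∑ i ∈ s, f i).re = ∑ i ∈ s, (f i).re := by
  classical
  induction s using Finset.induction_on with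
  | empty => simp
  | insert a s ha ih => rw [Finset.sum_insert ha, Finset.sum_insert ha, Quaternion.re_add, ih]

theorem self_eq_zero {x : Fin n → ℍ[ℝ]} (h : (star x ⬝ᵥ x).re = 0) : x = 0 := by
  have h1 : (star x ⬝ᵥ x).re = ∑ i, Quaternion.normSq (x i) := by
    simp only [dotProduct, Pi.star_apply]
    rw [re_sum']
    refine Finset.sum_congr rfl fun i _ => ?_
    rw [Quaternion.star_mul_self]
    rfl
  rw [h1, Finset.sum_eq_zero_iff_of_nonneg (fun i _ => Quaternion.normSq_nonneg)] at h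
  funext i
  exact Quaternion.normSq_eq_zero.1 (h i (Finset.mem_univ i))

/-- the right linear map of a matrix -/
noncomputable def Tm (N : Mat n) : (Fin n → ℍ[ℝ]) →ₗ[Q] (Fin n → ℍ[ℝ]) where
  toFun x := N *ᵥ x
  map_add' := mulVec_add N
  map_smul' d x := mulVec_smul N d x

theorem Tm_apply (N : Mat n) (x : Fin n → ℍ[ℝ]) : Tm N x = N *ᵥ x := rfl

/-- every right linear map is given by a matrix -/
theorem exists_Tm (T : (Fin n → ℍ[ℝ]) →ₗ[Q] (Fin n → ℍ[ℝ])) : ∃ N : Mat n, T = Tm N := by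
  refine ⟨Matrix.of fun i j => T (Pi.single j 1) i, ?_⟩
  have key : ∀ x : Fin n → ℍ[ℝ], x = ∑ j, (MulOpposite.op (x j)) • (Pi.single j (1 : ℍ[ℝ]) : Fin n → ℍ[ℝ]) := by
    intro x
    funext i
    rw [Finset.sum_apply]
    rw [Finset.sum_eq_single i]
    · rw [Pi.smul_apply, Pi.single_eq_same, MulOpposite.smul_eq_mul_unop, MulOpposite.unop_op, one_mul]
    · intro j _ hj
      rw [Pi.smul_apply, Pi.single_eq_of_ne (Ne.symm hj), smul_zero]
    · intro h
      exact absurd (Finset.mem_univ i) h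
  apply LinearMap.ext
  intro x
  conv_lhs => rw [key x]
  rw [map_sum]
  funext i
  rw [Finset.sum_apply, Tm_apply]
  simp only [map_smul, Pi.smul_apply, MulOpposite.smul_eq_mul_unop, MulOpposite.unop_op, mulVec,
    dotProduct, Matrix.of_apply]

theorem fm_add (A B : Mat n) : fm (A + B) = fm A + fm B := by
  refine LinearMap.ext fun x => LinearMap.ext fun y => ?_
  rw [LinearMap.add_apply, LinearMap.add_apply, fm_apply, fm_apply, fm_apply, add_mulVec,
    dotProduct_add, Quaternion.re_add]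

theorem fm_smul (c : ℝ) (A : Mat n) : fm (c • A) = c • fm A := by
  refine LinearMap.ext fun x => LinearMap.ext fun y => ?_
  rw [LinearMap.smul_apply, LinearMap.smul_apply, fm_apply, fm_apply, smul_mulVec,
    dotProduct_smul, Quaternion.re_smul]

theorem fm_comb (c d : ℝ) (A B : Mat n) : fm (c • A + d • B) = c • fm A + d • fm B := by
  rw [fm_add, fm_smul, fm_smul]

theorem fm_tt (C X : Mat n) : fm (Xᴴ * C * X) = tt (fm C) (Tm X) := by
  refine LinearMap.ext fun x => LinearMap.ext fun y => ?_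
  show (star x ⬝ᵥ (Xᴴ * C * X) *ᵥ y).re = (star (X *ᵥ x) ⬝ᵥ C *ᵥ (X *ᵥ y)).re
  rw [star_mulVec, ← dotProduct_mulVec, mulVec_mulVec, mulVec_mulVec, mul_assoc]

theorem vec_zero_of {z : Fin n → ℍ[ℝ]} (h : ∀ x : Fin n → ℍ[ℝ], (star x ⬝ᵥ z).re = 0) : z = 0 :=
  self_eq_zero (h z)

theorem fm_zero_right {C : Mat n} (y : Fin n → ℍ[ℝ]) : (∀ x, fm C x y = 0) ↔ C *ᵥ y = 0 := by
  constructor
  · intro h
    exact vec_zero_of fun x => h x
  · intro h x
    rw [fm_apply, h, dotProduct_zero]
    rfl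

theorem fm_zero_left {C : Mat n} (hC : C.IsHermitian) (y : Fin n → ℍ[ℝ]) :
    (∀ x, fm C y x = 0) ↔ C *ᵥ y = 0 := by
  rw [← fm_zero_right]
  exact forall_congr' fun x => by rw [fm_symm hC]

theorem fm_zero_iff (B : Mat n) (M : RSub n) :
    (∀ x ∈ M, ∀ y ∈ M, fm B x y = 0) ↔ (∀ x ∈ M, ∀ y ∈ M, star y ⬝ᵥ B *ᵥ x = 0) := by
  constructor
  · intro h x hx y hy
    set q := star y ⬝ᵥ B *ᵥ x with hq
    have h1 := h y hy (MulOpposite.op (star q) • x) (M.smul_mem _ hx)
    have e := form_smul B y x 1 (MulOpposite.op (star q))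
    rw [one_smul] at e
    rw [fm_apply, e, MulOpposite.unop_one, star_one, one_mul, MulOpposite.unop_op, ← hq,
      Quaternion.self_mul_star] at h1
    exact Quaternion.normSq_eq_zero.1 h1
  · intro h x hx y hy
    rw [fm_apply, h y hy x hx]
    rfl

theorem isHerm_smul {A : Mat n} (hA : A.IsHermitian) (c : ℝ) : (c • A).IsHermitian := by
  ext1 i j
  have := congrFun (congrFun hA i) j
  rw [conjTranspose_apply] at this ⊢
  rw [Matrix.smul_apply, Matrix.smul_apply, Quaternion.star_smul, this]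

theorem isHerm_comb {A B : Mat n} (hA : A.IsHermitian) (hB : B.IsHermitian) (c d : ℝ) :
    (c • A + d • B).IsHermitian := (isHerm_smul hA c).add (isHerm_smul hB d)

/-- matrix equation and forms -/
theorem fm_eq_iff (C D X : Mat n) :
    (∀ x y, fm C x (Tm X y) = fm D x y) ↔ C * X = D := by
  constructor
  · intro h
    have h1 : ∀ y, (C * X) *ᵥ y = D *ᵥ y := by
      intro y
      rw [← sub_eq_zero]
      apply vec_zero_of
      intro x
      have := h x y
      rw [fm_apply, fm_apply, Tm_apply, mulVec_mulVec] at this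
      rw [dotProduct_sub, Quaternion.re_sub, this, sub_self]
    ext1 i j
    have h2 := congrFun (h1 (Pi.single j 1)) i
    rw [mulVec_single_one, mulVec_single_one] at h2
    exact h2
  · rintro rfl x y
    rw [fm_apply, fm_apply, Tm_apply, mulVec_mulVec]

end

end Pool.QN
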