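import Pool.Agent.Helper9.QN.Defs2
import Pool.Agent.Helper9.QN.Mx

set_option autoImplicit false
set_option maxHeartbeats 1000000

namespace Pool.QN

open scoped Quaternion
open Matrix

/-- column of a matrix -/
def colv {n : ℕ} {ι : Type} (S : Matrix (Fin n) ι ℍ[ℝ]) (j : ι) : Fin n → ℍ[ℝ] := fun i => S i j

theorem finite_right : Module.Finite (ℍ[ℝ])ᵐᵒᵖ ℍ[ℝ] := by
  refine ⟨⟨{1}, ?_⟩⟩
  rw [eq_top_iff]
  intro x _
  rw [Finset.coe_singleton, Submodule.mem_span_singleton]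
  exact ⟨MulOpposite.op x, by rw [MulOpposite.smul_eq_mul_unop, MulOpposite.unop_op, one_mul]⟩

end Pool.QN
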